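import Pool.Agent.X87.PK.Fin

/-! # Deleting the bridges -/

set_option autoImplicit false

open Finset

namespace Pool.Agent.X87.PK

namespace MGraph

variable (G : MGraph)

lemma mem_cut {X : Finset G.V} {e : G.E} : e ∈ G.cut X ↔ ¬ (G.src e ∈ X ↔ G.tgt e ∈ X) := by
  rw [cut, mem_filter]
  simp

lemma cut_symmDiff (X Y : Finset G.V) : G.cut (symmDiff X Y) = symmDiff (G.cut X) (G.cut Y) := by
  ext e
  rw [mem_symmDiff, mem_cut, mem_cut, mem_cut, mem_symmDiff, mem_symmDiff]
  tauto

/-- `e` is a bridge -/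
def IsBr (e : G.E) : Prop := ∃ X : Finset G.V, G.cut X = {e}

lemma no_new_bridge (B : Finset G.E) (hB : ∀ b ∈ B, G.IsBr b) (e : G.E)
    (he : e ∉ B) (X : Finset G.V) (hX : G.cut X = insert e B) : G.IsBr e := by
  induction B using Finset.induction_on generalizing X with
  | empty => exact ⟨X, by rw [hX]; rfl⟩
  | insert b B hb ih =>
    obtain ⟨Y, hY⟩ := hB b (mem_insert_self _ _)
    refine ih (fun b' hb' => hB b' (mem_insert_of_mem hb')) (fun h => he (mem_insert_of_mem h))
      (symmDiff X Y) ?_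
    rw [cut_symmDiff, hX, hY]
    have h1 : e ≠ b := fun h => he (h ▸ mem_insert_self _ _)
    ext f
    rw [mem_symmDiff, mem_insert, mem_insert, mem_singleton, mem_insert]
    by_cases h2 : f = b
    · subst h2
      have : ¬ (f = e) := fun h => h1 h.symm
      tauto
    · tauto

end MGraph

/-- `H` is the graph `G` without its bridges -/
structure Del (H G : MGraph) where
  v : H.V ≃ G.V
  e : H.E ↪ G.E
  src : ∀ a, G.src (e a) = v (H.src a)
  tgt : ∀ a, G.tgt (e a) = v (H.tgt a)
  range : ∀ b : G.E, (∃ a, e a = b) ↔ ¬ G.IsBr b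

theorem exists_del (G : MGraph) : ∃ H : MGraph, Nonempty (Del H G) := by
  classical
  exact ⟨{ V := G.V, E := {e : G.E // ¬ G.IsBr e}, src := fun e => G.src e.1,
           tgt := fun e => G.tgt e.1 },
    ⟨{ v := Equiv.refl _, e := ⟨Subtype.val, Subtype.val_injective⟩, src := fun _ => rfl,
       tgt := fun _ => rfl, range := fun b => ⟨fun ⟨a, ha⟩ => ha ▸ a.2, fun h => ⟨⟨b, h⟩, rfl⟩⟩ }⟩⟩

namespace Del

variable {H G : MGraph} (D : Del H G)

lemma mem_cut (X : Finset H.V) (a : H.E) :
    a ∈ H.cut X ↔ D.e a ∈ G.cut (X.map D.v.toEmbedding) := by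
  rw [MGraph.mem_cut, MGraph.mem_cut, D.src, D.tgt]
  simp only [mem_map_equiv, Equiv.symm_apply_apply]

include D in
lemma bridgeless : H.Bridgeless := by
  intro X h
  rw [card_eq_one] at h
  obtain ⟨e, he⟩ := h
  refine (D.range (D.e e)).1 ⟨e, rfl⟩ ?_
  have h1 : D.e e ∈ G.cut (X.map D.v.toEmbedding) := by
    rw [← D.mem_cut, he]
    exact mem_singleton_self _
  refine G.no_new_bridge ((G.cut (X.map D.v.toEmbedding)).erase (D.e e)) ?_ (D.e e)
    (notMem_erase _ _) _ (insert_erase h1).symm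
  intro b hb
  by_contra hc
  obtain ⟨a, rfl⟩ := (D.range b).2 hc
  have h2 : a ∈ H.cut X := by
    rw [D.mem_cut]
    exact mem_of_mem_erase hb
  rw [he, mem_singleton] at h2
  exact ne_of_mem_erase hb (congrArg D.e h2)

/-- a subdivision in the graph without bridges is one in the graph -/
def liftSub (S : PetersenSubdivision H) : PetersenSubdivision G where
  branch := fun u => D.v (S.branch u)
  len := S.len
  vert := fun e j => D.v (S.vert e j)
  edge := fun e j => D.e (S.edge e j)
  branch_inj := D.v.injective.comp S.branch_inj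
  start := fun e => congrArg D.v (S.start e)
  stop := fun e => congrArg D.v (S.stop e)
  joins := fun e j hj => by
    rcases S.joins e j hj with ⟨h1, h2⟩ | ⟨h1, h2⟩
    · left
      exact ⟨by rw [D.src, h1], by rw [D.tgt, h2]⟩
    · right
      exact ⟨by rw [D.src, h1], by rw [D.tgt, h2]⟩
  inner_ne := fun e j u h1 h2 h => S.inner_ne e j u h1 h2 (D.v.injective h)
  inner_inj := fun e j e' j' h1 h2 h3 h4 h => S.inner_inj e j e' j' h1 h2 h3 h4 (D.v.injective h)

variable {w : G.E → ℕ}

lemma zero_on_bridge (hw : G.Admissible w) {e : G.E} (he : G.IsBr e) : w e = 0 := by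
  obtain ⟨X, hX⟩ := he
  have h1 := hw X e (by rw [hX]; exact mem_singleton_self _)
  rw [hX] at h1
  simpa using h1

lemma sum_core (hw : G.Admissible w) (s : Finset G.E) (t : Finset H.E)
    (hst : ∀ e : H.E, e ∈ t ↔ D.e e ∈ s) : ∑ e ∈ t, w (D.e e) = ∑ e ∈ s, w e := by
  classical
  rw [← sum_filter_add_sum_filter_not s (fun e => G.IsBr e)]
  have h1 : ∑ e ∈ s.filter (fun e => G.IsBr e), w e = 0 := by
    apply sum_eq_zero
    intro e he
    rw [mem_filter] at he
    exact zero_on_bridge hw he.2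
  rw [h1, zero_add]
  refine sum_bij (fun e _ => D.e e) ?_ ?_ ?_ ?_
  · intro e he
    rw [mem_filter]
    exact ⟨(hst e).1 he, (D.range _).1 ⟨e, rfl⟩⟩
  · intro a _ b _ h
    exact D.e.injective h
  · intro b hb
    rw [mem_filter] at hb
    obtain ⟨a, rfl⟩ := (D.range b).2 hb.2
    exact ⟨a, (hst _).2 hb.1, rfl⟩
  · intro a _
    rfl

lemma eulerian (h1 : G.Admissible w) (h2 : G.Eulerian w) : H.Eulerian (fun e => w (D.e e)) := by
  intro X
  rw [D.sum_core h1 (G.cut (X.map D.v.toEmbedding)) (H.cut X) (fun e => D.mem_cut X e)]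
  exact h2 _

lemma admissible (h1 : G.Admissible w) : H.Admissible (fun e => w (D.e e)) := by
  intro X e he
  rw [D.sum_core h1 ((G.cut (X.map D.v.toEmbedding)).erase (D.e e)) ((H.cut X).erase e) (fun f => by
    rw [mem_erase, mem_erase, D.mem_cut, Ne, Ne, D.e.injective.eq_iff])]
  exact h1 _ _ ((D.mem_cut X e).1 he)

lemma mem_up {C : Finset H.E} {e : H.E} : D.e e ∈ C.map D.e ↔ e ∈ C := mem_map' D.e

lemma deg_up (C : Finset H.E) (v : H.V) : G.deg (C.map D.e) (D.v v) = H.deg C v := by
  rw [MGraph.deg, MGraph.deg, filter_map, card_map, filter_map, card_map]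
  congr 2
  · apply filter_congr
    intro e _
    show G.src (D.e e) = D.v v ↔ _
    rw [D.src, D.v.injective.eq_iff]
  · apply filter_congr
    intro e _
    show G.tgt (D.e e) = D.v v ↔ _
    rw [D.tgt, D.v.injective.eq_iff]

lemma circuit_up {C : Finset H.E} (hC : H.IsCircuit C) : G.IsCircuit (C.map D.e) := by
  obtain ⟨h1, h2, h3⟩ := hC
  refine ⟨?_, ?_, ?_⟩
  · obtain ⟨e, he⟩ := h1
    exact ⟨D.e e, D.mem_up.2 he⟩
  · intro v
    rw [← D.v.apply_symm_apply v, deg_up]
    exact h2 _
  · intro T hT hne hcl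
    have h4 : ∀ e ∈ T, ∃ e' ∈ C, D.e e' = e := by
      intro e he
      exact mem_map.1 (hT he)
    let T' : Finset H.E := C.filter fun e => D.e e ∈ T
    have h5 : T'.map D.e = T := by
      ext e
      constructor
      · intro he
        obtain ⟨a, ha, rfl⟩ := mem_map.1 he
        exact (mem_filter.1 ha).2
      · intro he
        obtain ⟨a, ha, rfl⟩ := h4 e he
        exact D.mem_up.2 (mem_filter.2 ⟨ha, he⟩)
    have h6 : T' = C := by
      apply h3 T' (filter_subset _ _)
      · obtain ⟨e, he⟩ := hne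
        obtain ⟨a, ha, rfl⟩ := h4 e he
        exact ⟨a, mem_filter.2 ⟨ha, he⟩⟩
      · intro e he f hf hef
        rw [mem_filter] at he ⊢
        refine ⟨hf, hcl (D.e e) he.2 (D.e f) (D.mem_up.2 hf) ?_⟩
        obtain ⟨v, hv1, hv2⟩ := hef
        refine ⟨D.v v, ?_, ?_⟩
        · rcases hv1 with h | h
          · left; rw [D.src, h]
          · right; rw [D.tgt, h]
        · rcases hv2 with h | h
          · left; rw [D.src, h]
          · right; rw [D.tgt, h]
    rw [← h5, h6]

open scoped Classical in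
/-- transfer of a family of circuits -/
noncomputable def pull (χ : Finset H.E → ℕ) (C : Finset G.E) : ℕ :=
  if h : ∃ C' : Finset H.E, C'.map D.e = C then χ h.choose else 0

lemma pull_up (χ : Finset H.E → ℕ) (C : Finset H.E) : D.pull χ (C.map D.e) = χ C := by
  have h : ∃ C' : Finset H.E, C'.map D.e = C.map D.e := ⟨C, rfl⟩
  rw [pull, dif_pos h]
  congr 1
  exact map_injective D.e h.choose_spec

lemma pull_not (χ : Finset H.E → ℕ) {C : Finset G.E} (h : ¬ ∃ C' : Finset H.E, C'.map D.e = C) :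
    D.pull χ C = 0 := by
  rw [pull, dif_neg h]

lemma cover_up (h1 : G.Admissible w) (h : H.FaithfulCover (fun e => w (D.e e))) :
    G.FaithfulCover w := by
  obtain ⟨χ, h2, h3⟩ := h
  refine ⟨D.pull χ, ?_, ?_⟩
  · intro C hC
    by_cases h : ∃ C' : Finset H.E, C'.map D.e = C
    · obtain ⟨C', rfl⟩ := h
      rw [pull_up] at hC
      exact D.circuit_up (h2 _ hC)
    · exact absurd (D.pull_not χ h) hC
  · intro e
    by_cases he : G.IsBr e
    · rw [zero_on_bridge h1 he]
      apply sum_eq_zero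
      intro C hC
      rw [mem_filter] at hC
      apply D.pull_not
      rintro ⟨C', rfl⟩
      obtain ⟨a, _, ha⟩ := mem_map.1 hC.2
      exact (D.range e).1 ⟨a, ha⟩ he
    · obtain ⟨a, rfl⟩ := (D.range e).2 he
      have h4 : ∑ C with a ∈ C, χ C = w (D.e a) := h3 a
      rw [← h4]
      symm
      refine sum_bij_ne_zero (fun C _ _ => C.map D.e) ?_ ?_ ?_ ?_
      · intro C hC _
        rw [mem_filter] at hC ⊢
        exact ⟨mem_univ _, D.mem_up.2 hC.2⟩
      · intro C _ _ C' _ _ hh
        exact map_injective D.e hh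
      · intro C hC hne
        by_cases h : ∃ C' : Finset H.E, C'.map D.e = C
        · obtain ⟨C', rfl⟩ := h
          rw [pull_up] at hne
          rw [mem_filter] at hC
          exact ⟨C', mem_filter.2 ⟨mem_univ _, D.mem_up.1 hC.2⟩, hne, rfl⟩
        · exact absurd (D.pull_not χ h) hne
      · intro C _ _
        exact (D.pull_up χ C).symm

end Del

theorem hasP_of_del {H G : MGraph} (D : Del H G) {k : ℕ} (h : H.HasP k) : G.HasP k := by
  intro w h1 h2 h3
  exact D.cover_up h2 (h _ (fun e => h1 _) (D.admissible h2) (D.eulerian h2 h3))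

lemma hasP_of_one {G : MGraph} {k : ℕ} (h : G.HasP 1) : G.HasP k :=
  fun w _ h2 h3 => h w (fun _ => one_dvd _) h2 h3

theorem classification
    (agz : ∀ G : MGraph, G.Bridgeless → IsEmpty (PetersenSubdivision G) → G.HasP 1)
    (G : MGraph) {k : ℕ} (hk : Odd k) : G.HasP k ↔ IsEmpty (PetersenSubdivision G) := by
  constructor
  · intro h
    exact ⟨fun S => not_hasP S hk h⟩
  · intro h
    obtain ⟨H, ⟨D⟩⟩ := exists_del G
    apply hasP_of_del D
    apply hasP_of_one
    apply agz _ D.bridgeless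
    exact ⟨fun S => h.elim (D.liftSub S)⟩

end Pool.Agent.X87.PK
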