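import Mathlib

/-! # Faithful circuit covers with weights in `k ℤ_{≥ 0}`: definitions -/

set_option autoImplicit false

open Finset

namespace Pool.Agent.X87.PK

/-- A finite graph; parallel edges and loops are allowed. The ends of the edge `e` are `src e` and
`tgt e` (equal for a loop); their order plays no role. -/
structure MGraph where
  V : Type
  E : Type
  [fintypeV : Fintype V]
  [fintypeE : Fintype E]
  [decEqV : DecidableEq V]
  [decEqE : DecidableEq E]
  src : E → V
  tgt : E → V

attribute [instance] MGraph.fintypeV MGraph.fintypeE MGraph.decEqV MGraph.decEqE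

namespace MGraph

variable (G : MGraph)

/-- The degree of the vertex `v` in the edge set `C`; a loop counts twice. -/
def deg (C : Finset G.E) (v : G.V) : ℕ :=
  #{e ∈ C | G.src e = v} + #{e ∈ C | G.tgt e = v}

/-- `v` is an end of `e`. -/
def IsEnd (v : G.V) (e : G.E) : Prop := G.src e = v ∨ G.tgt e = v

/-- `a` and `b` are the two ends of `e`. -/
def Joins (e : G.E) (a b : G.V) : Prop :=
  (G.src e = a ∧ G.tgt e = b) ∨ (G.src e = b ∧ G.tgt e = a)

/-- `C` is (the edge set of) a circuit, a connected 2-regular subgraph: it is nonempty, every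
vertex has degree `0` or `2` in `C`, and a nonempty part of `C` which contains with an edge all
edges of `C` that share an end with it is the whole of `C`. -/
def IsCircuit (C : Finset G.E) : Prop :=
  C.Nonempty ∧ (∀ v, G.deg C v = 0 ∨ G.deg C v = 2) ∧
    ∀ D ⊆ C, D.Nonempty →
      (∀ e ∈ D, ∀ f ∈ C, (∃ v, G.IsEnd v e ∧ G.IsEnd v f) → f ∈ D) → D = C

/-- The edge-cut `δ(X)`: the edges with exactly one end in `X`. -/
def cut (X : Finset G.V) : Finset G.E := {e | ¬ (G.src e ∈ X ↔ G.tgt e ∈ X)}

/-- No edge is an edge-cut. -/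
def Bridgeless : Prop := ∀ X : Finset G.V, #(G.cut X) ≠ 1

/-- `w(e) ≤ w(T - e)` for every edge-cut `T` and every `e ∈ T`. -/
def Admissible (w : G.E → ℕ) : Prop :=
  ∀ X : Finset G.V, ∀ e ∈ G.cut X, w e ≤ ∑ f ∈ (G.cut X).erase e, w f

/-- `w(T)` is even for every edge-cut `T`. -/
def Eulerian (w : G.E → ℕ) : Prop := ∀ X : Finset G.V, Even (∑ f ∈ G.cut X, w f)

/-- A faithful circuit cover: nonnegative integers `χ(C)` for the circuits `C` with
`∑_{C ∋ e} χ(C) = w(e)` for every edge `e`. -/
def FaithfulCover (w : G.E → ℕ) : Prop :=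
  ∃ χ : Finset G.E → ℕ, (∀ C, χ C ≠ 0 → G.IsCircuit C) ∧ ∀ e, ∑ C with e ∈ C, χ C = w e

/-- The property `𝒫_k`: every admissible eulerian weight with values in `k ℤ_{≥ 0}` has a faithful
circuit cover. -/
def HasP (k : ℕ) : Prop :=
  ∀ w : G.E → ℕ, (∀ e, k ∣ w e) → G.Admissible w → G.Eulerian w → G.FaithfulCover w

end MGraph

/-- One end of each of the fifteen edges of the Petersen graph: the edges `0, …, 4` form the outer
pentagon `0, …, 4`, the edges `5, …, 9` are the spokes, and the edges `10, …, 14` form the inner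
pentagram `5, …, 9`. -/
def psrc : Fin 15 → Fin 10 := ![0, 1, 2, 3, 4, 0, 1, 2, 3, 4, 5, 6, 7, 8, 9]

/-- The other end of each of the fifteen edges of the Petersen graph. -/
def ptgt : Fin 15 → Fin 10 := ![1, 2, 3, 4, 0, 5, 6, 7, 8, 9, 7, 8, 9, 5, 6]

/-- A subdivision of the Petersen graph in `G`: distinct branch vertices `branch u` for the ten
vertices `u` of the Petersen graph, and for each of its fifteen edges `e` a path of `G` with the
vertices `vert e 0, …, vert e (len e + 1)` and the edges `edge e 0, …, edge e (len e)` which joins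
the branch vertices of the ends of `e`, such that the inner vertices of the paths are pairwise
distinct and are no branch vertices. -/
structure PetersenSubdivision (G : MGraph) where
  branch : Fin 10 → G.V
  len : Fin 15 → ℕ
  vert : Fin 15 → ℕ → G.V
  edge : Fin 15 → ℕ → G.E
  branch_inj : Function.Injective branch
  start : ∀ e, vert e 0 = branch (psrc e)
  stop : ∀ e, vert e (len e + 1) = branch (ptgt e)
  joins : ∀ e j, j ≤ len e → G.Joins (edge e j) (vert e j) (vert e (j + 1))
  inner_ne : ∀ e j u, 1 ≤ j → j ≤ len e → vert e j ≠ branch u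
  inner_inj : ∀ e j e' j', 1 ≤ j → j ≤ len e → 1 ≤ j' → j' ≤ len e' →
    vert e j = vert e' j' → e = e' ∧ j = j'

end Pool.Agent.X87.PK
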