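import Pool.Agent.X87.PK.Main

/-! # No faithful circuit cover for odd multiples -/

set_option autoImplicit false

open Finset

namespace Pool.Agent.X87.PK

def ea : Fin 10 → Fin 15 := ![0, 1, 2, 3, 4, 10, 11, 12, 13, 14]
def eb : Fin 10 → Fin 15 := ![4, 0, 1, 2, 3, 13, 14, 10, 11, 12]
def es : Fin 10 → Fin 15 := ![5, 6, 7, 8, 9, 5, 6, 7, 8, 9]

lemma coef : ∀ (u : Fin 10) (e : Fin 15),
    (if psrc e = u then 1 else 0) + (if ptgt e = u then 1 else 0) =
      (if e = ea u then 1 else 0) + (if e = eb u then 1 else 0) +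
        (if e = es u then (1 : ℕ) else 0) := by decide +kernel

lemma pw_vertex : ∀ u : Fin 10, pw (es u) = pw (ea u) + pw (eb u) := by decide +kernel

lemma four_dvd (x : Fin 15 → ℕ) (h1 : ∀ e, x e ≤ 1) (h2 : ∀ u, x (es u) = x (ea u) + x (eb u)) :
    4 ∣ x 5 + x 6 + x 7 + x 8 + x 9 := by
  have a0 : x 5 = x 0 + x 4 := h2 0
  have a1 : x 6 = x 1 + x 0 := h2 1
  have a2 : x 7 = x 2 + x 1 := h2 2
  have a3 : x 8 = x 3 + x 2 := h2 3
  have a4 : x 9 = x 4 + x 3 := h2 4
  have a5 : x 5 = x 10 + x 13 := h2 5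
  have a6 : x 6 = x 11 + x 14 := h2 6
  have a7 : x 7 = x 12 + x 10 := h2 7
  have a8 : x 8 = x 13 + x 11 := h2 8
  have a9 : x 9 = x 14 + x 12 := h2 9
  have b5 := h1 5
  have b6 := h1 6
  have b7 := h1 7
  have b8 := h1 8
  have b9 := h1 9
  have c0 : x 0 = 0 ∨ x 0 = 1 := by have := h1 0; omega
  have c1 : x 1 = 0 ∨ x 1 = 1 := by have := h1 1; omega
  have c2 : x 2 = 0 ∨ x 2 = 1 := by have := h1 2; omega
  have c3 : x 3 = 0 ∨ x 3 = 1 := by have := h1 3; omega
  have c4 : x 4 = 0 ∨ x 4 = 1 := by have := h1 4; omega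
  rcases c0 with c0 | c0 <;> rcases c1 with c1 | c1 <;> rcases c2 with c2 | c2 <;>
    rcases c3 with c3 | c3 <;> rcases c4 with c4 | c4 <;> omega

namespace PetersenSubdivision

variable {G : MGraph} (S : PetersenSubdivision G)

/-- a 2-regular edge set inside the subdivision contains all or none of the edges of a path -/
lemma path_const (C : Finset G.E) (hC : ∀ f ∈ C, ∃ e j, j ≤ S.len e ∧ S.edge e j = f)
    (hd : ∀ v, G.deg C v = 0 ∨ G.deg C v = 2) (e : Fin 15) :
    ∀ j, j ≤ S.len e → (S.edge e j ∈ C ↔ S.edge e 0 ∈ C) := by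
  intro j
  induction j with
  | zero => intro _; rfl
  | succ j ih =>
    intro hj
    rw [← ih (by omega)]
    have h1 := S.deg_inner C hC e j hj
    have h2 := hd (S.vert e (j + 1))
    rw [h1] at h2
    by_cases a : S.edge e j ∈ C <;> by_cases b : S.edge e (j + 1) ∈ C <;> simp [a, b] at h2 ⊢

lemma deg_branch' (C : Finset G.E) (hC : ∀ f ∈ C, ∃ e j, j ≤ S.len e ∧ S.edge e j = f)
    (hd : ∀ v, G.deg C v = 0 ∨ G.deg C v = 2) (x : Fin 15 → ℕ)
    (hx : ∀ e, x e = if S.edge e 0 ∈ C then 1 else 0) (u : Fin 10) :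
    x (ea u) + x (eb u) + x (es u) = 0 ∨ x (ea u) + x (eb u) + x (es u) = 2 := by
  have h1 := S.deg_branch C hC u
  have h2 : ∑ e, ((if psrc e = u ∧ S.edge e 0 ∈ C then 1 else 0) +
      (if ptgt e = u ∧ S.edge e (S.len e) ∈ C then 1 else 0)) =
      ∑ e, x e * ((if e = ea u then 1 else 0) + (if e = eb u then 1 else 0) +
        (if e = es u then 1 else 0)) := by
    refine sum_congr rfl fun e _ => ?_
    rw [← coef, hx]
    have h3 := S.path_const C hC hd e (S.len e) le_rfl
    simp only [h3]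
    by_cases a : S.edge e 0 ∈ C <;> simp [a]
  have h4 : ∑ e, x e * ((if e = ea u then 1 else 0) + (if e = eb u then 1 else 0) +
        (if e = es u then 1 else 0)) = x (ea u) + x (eb u) + x (es u) := by
    simp only [mul_add, sum_add_distrib, mul_ite, mul_one, mul_zero, sum_ite_eq', mem_univ, if_true]
  rw [h2, h4] at h1
  rw [← h1]
  exact hd _

theorem no_cover {k : ℕ} (hk : Odd k) : ¬ G.FaithfulCover (S.wt k) := by
  rintro ⟨χ, h1, h2⟩
  -- members of the cover lie in the subdivision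
  have hsup : ∀ C, χ C ≠ 0 → ∀ f ∈ C, ∃ e j, j ≤ S.len e ∧ S.edge e j = f := by
    intro C hC f hf
    apply S.wt_ne k
    rw [← h2 f]
    intro h0
    rw [sum_eq_zero_iff] at h0
    exact hC (h0 C (by rw [mem_filter]; exact ⟨mem_univ _, hf⟩))
  let x : Finset G.E → Fin 15 → ℕ := fun C e => if S.edge e 0 ∈ C then 1 else 0
  have hx1 : ∀ C e, x C e ≤ 1 := by
    intro C e
    simp only [x]
    split_ifs <;> omega
  have hsum : ∀ e, ∑ C, χ C * x C e = k * pw e := by
    intro e
    rw [← S.wt_edge k (Nat.zero_le (S.len e)), ← h2, sum_filter]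
    refine sum_congr rfl fun C _ => ?_
    simp only [x]
    split_ifs <;> simp
  have htight : ∀ C, χ C ≠ 0 → ∀ u, x C (es u) = x C (ea u) + x C (eb u) := by
    intro C hC u
    have h3 : ∀ D ∈ (univ : Finset (Finset G.E)),
        χ D * x D (es u) ≤ χ D * (x D (ea u) + x D (eb u)) := by
      intro D _
      by_cases hD : χ D = 0
      · rw [hD]
        simp
      apply Nat.mul_le_mul_left
      have h4 := S.deg_branch' D (hsup D hD) (h1 D hD).2.1 (x D) (fun _ => rfl) u
      have h5 := hx1 D (es u)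
      omega
    have h6 : ∑ D, χ D * x D (es u) = ∑ D, χ D * (x D (ea u) + x D (eb u)) := by
      simp only [mul_add, sum_add_distrib]
      rw [hsum, hsum, hsum, pw_vertex]
      ring
    have h7 := (sum_eq_sum_iff_of_le h3).1 h6 C (mem_univ _)
    exact Nat.eq_of_mul_eq_mul_left (Nat.pos_of_ne_zero hC) h7
  have h8 : 4 ∣ ∑ C, χ C * (x C 5 + x C 6 + x C 7 + x C 8 + x C 9) := by
    apply dvd_sum
    intro C _
    by_cases hC : χ C = 0
    · rw [hC]
      simp
    · exact (four_dvd (x C) (hx1 C) (htight C hC)).mul_left _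
  have h9 : ∑ C, χ C * (x C 5 + x C 6 + x C 7 + x C 8 + x C 9) = 10 * k := by
    simp only [mul_add, sum_add_distrib]
    rw [hsum, hsum, hsum, hsum, hsum]
    have p5 : pw 5 = 2 := rfl
    have p6 : pw 6 = 2 := rfl
    have p7 : pw 7 = 2 := rfl
    have p8 : pw 8 = 2 := rfl
    have p9 : pw 9 = 2 := rfl
    rw [p5, p6, p7, p8, p9]
    ring
  rw [h9] at h8
  obtain ⟨m, hm⟩ := hk
  omega

end PetersenSubdivision

/-- for odd `k` a graph with the property `𝒫_k` contains no subdivision of the Petersen graph -/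
theorem not_hasP {G : MGraph} (S : PetersenSubdivision G) {k : ℕ} (hk : Odd k) : ¬ G.HasP k := by
  intro h
  exact S.no_cover hk (h (S.wt k) (S.dvd_wt k) (S.admissible k) (S.eulerian k))

end Pool.Agent.X87.PK
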