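import Pool.Agent.X87.PK.Sub

/-! # Odd multiples of the Petersen weight on a subdivision -/

set_option autoImplicit false

open Finset

namespace Pool.Agent.X87.PK

/-- weight `2` on the spokes, `1` on the two pentagons -/
def pw : Fin 15 → ℕ := ![1, 1, 1, 1, 1, 2, 2, 2, 2, 2, 1, 1, 1, 1, 1]

lemma pw_pos : ∀ e, 1 ≤ pw e := by decide +kernel

/-- crossing indicator of an edge -/
def dc (Y : Fin 10 → Bool) (e : Fin 15) : ℕ := if Y (psrc e) = Y (ptgt e) then 0 else 1

lemma dc_even : ∀ Y : Fin 10 → Bool, (∑ e, dc Y e * pw e) % 2 = 0 := by decide +kernel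

lemma dc_adm : ∀ (Y : Fin 10 → Bool) (e : Fin 15), dc Y e = 1 → 2 * pw e ≤ ∑ e, dc Y e * pw e := by
  decide +kernel

/-- number of changes along a sequence -/
lemma changes (P : ℕ → Bool) (n : ℕ) :
    ∃ t, #{j ∈ range n | P j ≠ P (j + 1)} = (if P 0 = P n then 0 else 1) + 2 * t := by
  induction n with
  | zero => exact ⟨0, by simp⟩
  | succ n ih =>
    obtain ⟨t, ht⟩ := ih
    rw [range_add_one, filter_insert]
    by_cases h : P n = P (n + 1)
    · refine ⟨t, ?_⟩
      rw [if_neg (by simpa using h), ht, h]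
    · rw [if_pos h, card_insert_of_notMem (by simp), ht]
      by_cases h0 : P 0 = P n
      · refine ⟨t, ?_⟩
        have : ¬ P 0 = P (n + 1) := by rw [h0]; exact h
        rw [if_pos h0, if_neg this]
        omega
      · refine ⟨t + 1, ?_⟩
        have : P 0 = P (n + 1) := by
          cases h1 : P 0 <;> cases h2 : P n <;> cases h3 : P (n + 1) <;> simp_all
        rw [if_neg h0, if_pos this]
        omega

namespace PetersenSubdivision

variable {G : MGraph} (S : PetersenSubdivision G) (k : ℕ)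

/-- the weight `k pw` on the subdivision and `0` elsewhere -/
def wt (f : G.E) : ℕ :=
  ∑ e, ∑ j ∈ range (S.len e + 1), if S.edge e j = f then k * pw e else 0

lemma wt_edge {e₀ : Fin 15} {i : ℕ} (hi : i ≤ S.len e₀) : S.wt k (S.edge e₀ i) = k * pw e₀ := by
  rw [wt, sum_eq_single e₀]
  · rw [sum_eq_single i]
    · simp
    · intro b hb hne
      rw [mem_range] at hb
      rw [if_neg]
      intro h
      exact hne (S.edge_inj (by omega) hi h).2
    · intro h
      rw [mem_range] at h
      omega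
  · intro b _ hne
    apply sum_eq_zero
    intro j hj
    rw [mem_range] at hj
    rw [if_neg]
    intro h
    exact hne (S.edge_inj (by omega) hi h).1
  · intro h
    exact absurd (mem_univ _) h

lemma wt_ne {f : G.E} (h : S.wt k f ≠ 0) : ∃ e j, j ≤ S.len e ∧ S.edge e j = f := by
  by_contra hc
  apply h
  rw [wt]
  apply sum_eq_zero
  intro e _
  apply sum_eq_zero
  intro j hj
  rw [mem_range] at hj
  rw [if_neg]
  intro hh
  exact hc ⟨e, j, by omega, hh⟩

lemma dvd_wt (f : G.E) : k ∣ S.wt k f := by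
  apply dvd_sum
  intro e _
  apply dvd_sum
  intro j _
  split_ifs
  · exact dvd_mul_right _ _
  · exact dvd_zero _

/-- the number of edges of the path `e` in the cut -/
def cr (X : Finset G.V) (e : Fin 15) : ℕ := #{j ∈ range (S.len e + 1) | S.edge e j ∈ G.cut X}

lemma wt_cut (X : Finset G.V) : ∑ f ∈ G.cut X, S.wt k f = ∑ e, S.cr X e * (k * pw e) := by
  simp only [wt]
  rw [sum_comm]
  refine sum_congr rfl fun e _ => ?_
  rw [sum_comm, cr, card_filter, sum_mul]
  refine sum_congr rfl fun j _ => ?_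
  rw [sum_ite_eq]
  split_ifs <;> simp

lemma mem_cut_iff (X : Finset G.V) {e : Fin 15} {j : ℕ} (hj : j ≤ S.len e) :
    S.edge e j ∈ G.cut X ↔
      decide (S.vert e j ∈ X) ≠ decide (S.vert e (j + 1) ∈ X) := by
  rw [MGraph.cut, mem_filter]
  rcases S.joins e j hj with ⟨h1, h2⟩ | ⟨h1, h2⟩
  · rw [h1, h2]
    by_cases h3 : S.vert e j ∈ X <;> by_cases h4 : S.vert e (j + 1) ∈ X <;> simp [h3, h4]
  · rw [h1, h2]
    by_cases h3 : S.vert e j ∈ X <;> by_cases h4 : S.vert e (j + 1) ∈ X <;> simp [h3, h4]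

lemma cr_eq (X : Finset G.V) (e : Fin 15) :
    ∃ t, S.cr X e = dc (fun u => decide (S.branch u ∈ X)) e + 2 * t := by
  obtain ⟨t, ht⟩ := changes (fun j => decide (S.vert e j ∈ X)) (S.len e + 1)
  refine ⟨t, ?_⟩
  rw [S.start, S.stop] at ht
  rw [dc, ← ht, cr]
  congr 1
  apply filter_congr
  intro j hj
  rw [mem_range] at hj
  exact S.mem_cut_iff X (by omega)

lemma eulerian : G.Eulerian (S.wt k) := by
  intro X
  rw [S.wt_cut]
  choose t ht using S.cr_eq X
  have h1 : ∑ e, S.cr X e * (k * pw e) =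
      k * (∑ e, dc (fun u => decide (S.branch u ∈ X)) e * pw e) + 2 * ∑ e, t e * (k * pw e) := by
    rw [mul_sum, mul_sum, ← sum_add_distrib]
    refine sum_congr rfl fun e _ => ?_
    rw [ht e]
    ring
  have h2 : Even (∑ e, dc (fun u => decide (S.branch u ∈ X)) e * pw e) :=
    Nat.even_iff.2 (dc_even _)
  rw [h1]
  exact (h2.mul_left k).add (even_two_mul _)

lemma admissible : G.Admissible (S.wt k) := by
  intro X f hf
  by_cases h0 : S.wt k f = 0
  · rw [h0]
    exact Nat.zero_le _
  obtain ⟨e, j, hj, rfl⟩ := S.wt_ne k h0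
  have h1 := add_sum_erase (G.cut X) (S.wt k) hf
  rw [S.wt_cut] at h1
  have h2 : 2 * S.wt k (S.edge e j) ≤ ∑ e, S.cr X e * (k * pw e) := by
    rw [S.wt_edge k hj]
    have h3 : 1 ≤ S.cr X e := by
      rw [cr, Nat.one_le_iff_ne_zero, ← Nat.pos_iff_ne_zero, card_pos]
      exact ⟨j, by rw [mem_filter, mem_range]; exact ⟨by omega, hf⟩⟩
    by_cases h4 : 2 ≤ S.cr X e
    · calc 2 * (k * pw e) ≤ S.cr X e * (k * pw e) := Nat.mul_le_mul_right _ h4
        _ ≤ ∑ e, S.cr X e * (k * pw e) :=
            single_le_sum (f := fun e => S.cr X e * (k * pw e)) (fun _ _ => Nat.zero_le _)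
              (mem_univ e)
    · obtain ⟨t, ht⟩ := S.cr_eq X e
      have h5 : dc (fun u => decide (S.branch u ∈ X)) e = 1 := by omega
      have h6 := dc_adm _ e h5
      calc 2 * (k * pw e) = k * (2 * pw e) := by ring
        _ ≤ k * ∑ e, dc (fun u => decide (S.branch u ∈ X)) e * pw e := Nat.mul_le_mul_left _ h6
        _ = ∑ e, dc (fun u => decide (S.branch u ∈ X)) e * (k * pw e) := by
            rw [mul_sum]
            exact sum_congr rfl fun e _ => by ring
        _ ≤ ∑ e, S.cr X e * (k * pw e) := by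
            refine sum_le_sum fun e _ => Nat.mul_le_mul_right _ ?_
            obtain ⟨t', ht'⟩ := S.cr_eq X e
            omega
  omega

end PetersenSubdivision

end Pool.Agent.X87.PK
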