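import Pool.Agent.X87.PK.Defs

/-! # The edges of a subdivision of the Petersen graph -/

set_option autoImplicit false

open Finset

namespace Pool.Agent.X87.PK

lemma ends_ne : ∀ e : Fin 15, psrc e ≠ ptgt e := by decide +kernel

lemma ends_inj : ∀ e e' : Fin 15,
    ((psrc e = psrc e' ∧ ptgt e = ptgt e') ∨ (psrc e = ptgt e' ∧ ptgt e = psrc e')) → e = e' := by
  decide +kernel

namespace PetersenSubdivision

variable {G : MGraph} (S : PetersenSubdivision G)

/-- a vertex of a path determines its position, in the following sense -/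
lemma vert_eq {e e' : Fin 15} {j j' : ℕ} (hj : j ≤ S.len e + 1) (hj' : j' ≤ S.len e' + 1)
    (h : S.vert e j = S.vert e' j') :
    (e = e' ∧ j = j') ∨
      ((j = 0 ∨ j = S.len e + 1) ∧ (j' = 0 ∨ j' = S.len e' + 1)) := by
  by_cases h1 : 1 ≤ j ∧ j ≤ S.len e
  · by_cases h2 : 1 ≤ j' ∧ j' ≤ S.len e'
    · exact Or.inl (S.inner_inj e j e' j' h1.1 h1.2 h2.1 h2.2 h)
    · exfalso
      have h3 : j' = 0 ∨ j' = S.len e' + 1 := by omega
      rcases h3 with rfl | rfl
      · rw [S.start] at h
        exact S.inner_ne e j _ h1.1 h1.2 h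
      · rw [S.stop] at h
        exact S.inner_ne e j _ h1.1 h1.2 h
  · by_cases h2 : 1 ≤ j' ∧ j' ≤ S.len e'
    · exfalso
      have h3 : j = 0 ∨ j = S.len e + 1 := by omega
      rcases h3 with rfl | rfl
      · rw [S.start] at h
        exact S.inner_ne e' j' _ h2.1 h2.2 h.symm
      · rw [S.stop] at h
        exact S.inner_ne e' j' _ h2.1 h2.2 h.symm
    · right
      omega

lemma vert_same {e : Fin 15} {j j' : ℕ} (hj : j ≤ S.len e + 1) (hj' : j' ≤ S.len e + 1)
    (h : S.vert e j = S.vert e j') : j = j' := by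
  rcases S.vert_eq hj hj' h with h1 | ⟨h1, h2⟩
  · exact h1.2
  · rcases h1 with rfl | rfl <;> rcases h2 with rfl | rfl
    · rfl
    · rw [S.start, S.stop] at h
      exact absurd (S.branch_inj h) (ends_ne e)
    · rw [S.start, S.stop] at h
      exact absurd (S.branch_inj h).symm (ends_ne e)
    · rfl

/-- the edges of the paths are distinct -/
lemma edge_inj {e e' : Fin 15} {j j' : ℕ} (hj : j ≤ S.len e) (hj' : j' ≤ S.len e')
    (h : S.edge e j = S.edge e' j') : e = e' ∧ j = j' := by
  have h1 := S.joins e j hj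
  have h2 := S.joins e' j' hj'
  rw [h] at h1
  have h3 : (S.vert e j = S.vert e' j' ∧ S.vert e (j + 1) = S.vert e' (j' + 1)) ∨
      (S.vert e j = S.vert e' (j' + 1) ∧ S.vert e (j + 1) = S.vert e' j') := by
    rcases h1 with ⟨a1, b1⟩ | ⟨a1, b1⟩ <;> rcases h2 with ⟨a2, b2⟩ | ⟨a2, b2⟩
    · exact Or.inl ⟨a1.symm.trans a2, b1.symm.trans b2⟩
    · exact Or.inr ⟨a1.symm.trans a2, b1.symm.trans b2⟩
    · exact Or.inr ⟨b1.symm.trans b2, a1.symm.trans a2⟩
    · exact Or.inl ⟨b1.symm.trans b2, a1.symm.trans a2⟩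
  have key : e = e' → e = e' ∧ j = j' := by
    intro he
    subst he
    refine ⟨rfl, ?_⟩
    rcases h3 with ⟨h4, _⟩ | ⟨h4, h5⟩
    · exact S.vert_same (by omega) (by omega) h4
    · have h6 := S.vert_same (by omega) (by omega) h4
      have h7 := S.vert_same (by omega) (by omega) h5
      omega
  rcases h3 with ⟨h4, h5⟩ | ⟨h4, h5⟩
  · rcases S.vert_eq (by omega) (by omega) h4 with h6 | ⟨h6, h7⟩
    · exact key h6.1
    · rcases S.vert_eq (by omega) (by omega) h5 with h8 | ⟨h8, h9⟩
      · exact key h8.1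
      · have a1 : j = 0 := by omega
        have a2 : S.len e = 0 := by omega
        have a3 : j' = 0 := by omega
        have a4 : S.len e' = 0 := by omega
        apply key
        have b1 := S.start e
        have b2 := S.start e'
        have b3 := S.stop e
        have b4 := S.stop e'
        rw [a2] at b3
        rw [a4] at b4
        rw [a1, a3] at h4 h5
        apply ends_inj
        left
        exact ⟨S.branch_inj (b1.symm.trans (h4.trans b2)), S.branch_inj (b3.symm.trans (h5.trans b4))⟩
  · rcases S.vert_eq (by omega) (by omega) h4 with h6 | ⟨h6, h7⟩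
    · exact key h6.1
    · rcases S.vert_eq (by omega) (by omega) h5 with h8 | ⟨h8, h9⟩
      · exact key h8.1
      · have a1 : j = 0 := by omega
        have a2 : S.len e = 0 := by omega
        have a3 : j' = 0 := by omega
        have a4 : S.len e' = 0 := by omega
        apply key
        have b1 := S.start e
        have b2 := S.start e'
        have b3 := S.stop e
        have b4 := S.stop e'
        rw [a2] at b3
        rw [a4] at b4
        rw [a1, a3] at h4 h5
        apply ends_inj
        right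
        exact ⟨S.branch_inj (b1.symm.trans (h4.trans b4)), S.branch_inj (b3.symm.trans (h5.trans b2))⟩

/-- the positions of the edges -/
def idx : Finset (Σ _ : Fin 15, ℕ) := univ.sigma fun e => range (S.len e + 1)

lemma sum_over (C : Finset G.E) (hC : ∀ f ∈ C, ∃ e j, j ≤ S.len e ∧ S.edge e j = f)
    (g : G.E → ℕ) :
    ∑ f ∈ C, g f = ∑ e, ∑ j ∈ range (S.len e + 1), if S.edge e j ∈ C then g (S.edge e j) else 0 := by
  have h1 : C = ((S.idx.filter fun p => S.edge p.1 p.2 ∈ C).image fun p => S.edge p.1 p.2) := by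
    ext f
    simp only [mem_image, mem_filter, idx, mem_sigma, mem_univ, true_and, mem_range]
    constructor
    · intro hf
      obtain ⟨e, j, hj, rfl⟩ := hC f hf
      exact ⟨⟨e, j⟩, ⟨by simpa using Nat.lt_succ_of_le hj, hf⟩, rfl⟩
    · rintro ⟨p, ⟨_, hp⟩, rfl⟩
      exact hp
  have h2 : Set.InjOn (fun p : (Σ _ : Fin 15, ℕ) => S.edge p.1 p.2)
      (S.idx.filter fun p => S.edge p.1 p.2 ∈ C : Finset (Σ _ : Fin 15, ℕ)) := by
    rintro ⟨e, j⟩ hp ⟨e', j'⟩ hp' hh
    rw [mem_coe, mem_filter, idx, mem_sigma, mem_range] at hp hp'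
    have q1 : j < S.len e + 1 := hp.1.2
    have q2 : j' < S.len e' + 1 := hp'.1.2
    have := S.edge_inj (Nat.le_of_lt_succ q1) (Nat.le_of_lt_succ q2) hh
    obtain ⟨rfl, rfl⟩ := this
    rfl
  calc ∑ f ∈ C, g f
      = ∑ f ∈ ((S.idx.filter fun p => S.edge p.1 p.2 ∈ C).image fun p => S.edge p.1 p.2), g f := by
        rw [← h1]
    _ = ∑ p ∈ S.idx.filter fun p => S.edge p.1 p.2 ∈ C, g (S.edge p.1 p.2) := sum_image h2
    _ = ∑ p ∈ S.idx, if S.edge p.1 p.2 ∈ C then g (S.edge p.1 p.2) else 0 := by rw [sum_filter]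
    _ = _ := by rw [idx, sum_sigma]

lemma deg_sum (C : Finset G.E) (v : G.V) :
    G.deg C v = ∑ f ∈ C, ((if G.src f = v then 1 else 0) + (if G.tgt f = v then 1 else 0)) := by
  rw [MGraph.deg, sum_add_distrib, card_filter, card_filter]

lemma deg_eq (C : Finset G.E) (hC : ∀ f ∈ C, ∃ e j, j ≤ S.len e ∧ S.edge e j = f) (v : G.V) :
    G.deg C v = ∑ e, ∑ j ∈ range (S.len e + 1), if S.edge e j ∈ C then
      ((if S.vert e j = v then 1 else 0) + (if S.vert e (j + 1) = v then 1 else 0)) else 0 := by
  rw [deg_sum, S.sum_over C hC]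
  refine sum_congr rfl fun e _ => sum_congr rfl fun j hj => ?_
  rw [mem_range] at hj
  rcases S.joins e j (by omega) with ⟨h1, h2⟩ | ⟨h1, h2⟩
  · rw [h1, h2]
  · rw [h1, h2, add_comm]

/-- the degree at an inner vertex of a path -/
lemma deg_inner (C : Finset G.E) (hC : ∀ f ∈ C, ∃ e j, j ≤ S.len e ∧ S.edge e j = f)
    (e₀ : Fin 15) (i : ℕ) (hi : i + 1 ≤ S.len e₀) :
    G.deg C (S.vert e₀ (i + 1)) =
      (if S.edge e₀ i ∈ C then 1 else 0) + (if S.edge e₀ (i + 1) ∈ C then 1 else 0) := by
  rw [S.deg_eq C hC]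
  have h1 : ∀ e, ∀ j ∈ range (S.len e + 1), (if S.edge e j ∈ C then
      ((if S.vert e j = S.vert e₀ (i + 1) then 1 else 0) +
        (if S.vert e (j + 1) = S.vert e₀ (i + 1) then 1 else 0)) else 0) =
      (if e = e₀ ∧ j = i + 1 ∧ S.edge e₀ (i + 1) ∈ C then 1 else 0) +
        (if e = e₀ ∧ j = i ∧ S.edge e₀ i ∈ C then 1 else 0) := by
    intro e j hj
    rw [mem_range] at hj
    have a1 : S.vert e j = S.vert e₀ (i + 1) ↔ e = e₀ ∧ j = i + 1 := by
      constructor
      · intro h
        rcases S.vert_eq (by omega) (by omega) h with h2 | h2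
        · exact h2
        · omega
      · rintro ⟨rfl, rfl⟩
        rfl
    have a2 : S.vert e (j + 1) = S.vert e₀ (i + 1) ↔ e = e₀ ∧ j = i := by
      constructor
      · intro h
        rcases S.vert_eq (by omega) (by omega) h with h2 | h2
        · exact ⟨h2.1, by omega⟩
        · omega
      · rintro ⟨rfl, rfl⟩
        rfl
    by_cases b1 : e = e₀
    · subst b1
      by_cases b2 : j = i + 1
      · subst b2
        simp [a2]
      · by_cases b3 : j = i
        · subst b3
          simp [a1]
        · simp [a1, a2, b2, b3]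
    · simp [a1, a2, b1]
  rw [sum_congr rfl fun e _ => sum_congr rfl (h1 e)]
  rw [sum_eq_single e₀]
  · rw [sum_add_distrib]
    have c1 : ∑ j ∈ range (S.len e₀ + 1),
        (if e₀ = e₀ ∧ j = i + 1 ∧ S.edge e₀ (i + 1) ∈ C then 1 else 0) =
        if S.edge e₀ (i + 1) ∈ C then 1 else 0 := by
      rw [sum_eq_single (i + 1)]
      · simp
      · intro b _ hb
        simp [hb]
      · intro hb
        rw [mem_range] at hb
        omega
    have c2 : ∑ j ∈ range (S.len e₀ + 1),
        (if e₀ = e₀ ∧ j = i ∧ S.edge e₀ i ∈ C then 1 else 0) =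
        if S.edge e₀ i ∈ C then 1 else 0 := by
      rw [sum_eq_single i]
      · simp
      · intro b _ hb
        simp [hb]
      · intro hb
        rw [mem_range] at hb
        omega
    rw [c1, c2, add_comm]
  · intro b _ hb
    apply sum_eq_zero
    intro j _
    simp [hb]
  · intro h
    exact absurd (mem_univ _) h

/-- the degree at a branch vertex -/
lemma deg_branch (C : Finset G.E) (hC : ∀ f ∈ C, ∃ e j, j ≤ S.len e ∧ S.edge e j = f)
    (u : Fin 10) :
    G.deg C (S.branch u) = ∑ e, ((if psrc e = u ∧ S.edge e 0 ∈ C then 1 else 0) +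
      (if ptgt e = u ∧ S.edge e (S.len e) ∈ C then 1 else 0)) := by
  rw [S.deg_eq C hC]
  refine sum_congr rfl fun e _ => ?_
  have h1 : ∀ j ∈ range (S.len e + 1), (if S.edge e j ∈ C then
      ((if S.vert e j = S.branch u then 1 else 0) +
        (if S.vert e (j + 1) = S.branch u then 1 else 0)) else 0) =
      (if j = 0 then (if psrc e = u ∧ S.edge e 0 ∈ C then 1 else 0) else 0) +
        (if j = S.len e then (if ptgt e = u ∧ S.edge e (S.len e) ∈ C then 1 else 0) else 0) := by
    intro j hj
    rw [mem_range] at hj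
    have a1 : S.vert e j = S.branch u ↔ j = 0 ∧ psrc e = u := by
      constructor
      · intro h
        by_cases h2 : j = 0
        · subst h2
          rw [S.start] at h
          exact ⟨rfl, S.branch_inj h⟩
        · exact absurd h (S.inner_ne e j u (by omega) (by omega))
      · rintro ⟨rfl, rfl⟩
        exact S.start e
    have a2 : S.vert e (j + 1) = S.branch u ↔ j = S.len e ∧ ptgt e = u := by
      constructor
      · intro h
        by_cases h2 : j = S.len e
        · subst h2
          rw [S.stop] at h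
          exact ⟨rfl, S.branch_inj h⟩
        · exact absurd h (S.inner_ne e (j + 1) u (by omega) (by omega))
      · rintro ⟨rfl, rfl⟩
        exact S.stop e
    simp only [a1, a2]
    by_cases b1 : j = 0
    · by_cases b2 : j = S.len e
      · rw [← b2]
        subst b1
        by_cases b3 : S.edge e 0 ∈ C <;> simp [b3]
      · subst b1
        by_cases b3 : S.edge e 0 ∈ C <;> simp [b3, b2]
    · by_cases b2 : j = S.len e
      · rw [← b2]
        by_cases b3 : S.edge e j ∈ C <;> simp [b3, b1]
      · simp [b1, b2]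
  rw [sum_congr rfl h1, sum_add_distrib]
  congr 1
  · rw [sum_ite_eq' (range (S.len e + 1)) 0]
    simp
  · rw [sum_ite_eq' (range (S.len e + 1)) (S.len e)]
    simp

end PetersenSubdivision

end Pool.Agent.X87.PK
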